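import Mathlib

namespace Pool.Agent.Results.MP_c90a8c_co.Holds

open Finset

/-- area of a word, as an integer -/
def area {n : ℕ} (g : Fin n → ℕ) : ℤ :=
  (∑ i, (g i : ℤ)) - ((univ.filter fun i => 0 < g i).card : ℤ)

/-- diagonal inversions -/
def dinv {n : ℕ} (g : Fin n → ℕ) (p : Fin n → ℕ+) : ℕ :=
  (univ.filter fun x : Fin n × Fin n => x.1 < x.2 ∧ g x.1 = g x.2 ∧ p x.1 > p x.2).card +
  (univ.filter fun x : Fin n × Fin n => x.1 < x.2 ∧ g x.2 = g x.1 + 1 ∧ p x.1 < p x.2).card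

/-- exponent vector of the monomial x^p -/
noncomputable def expo {n : ℕ} (p : Fin n → ℕ+) : ℕ+ →₀ ℕ := ∑ i, Finsupp.single (p i) 1

/-- the pairs contributing the monomial q^a t^d x^m to the link function of v -/
def S {n : ℕ} (v : Fin n → Fin 2) (m : ℕ+ →₀ ℕ) (a d : ℕ) : Set ((Fin n → ℕ) × (Fin n → ℕ+)) :=
  {x | (∀ i, x.1 i = 0 ↔ v i = 1) ∧ area x.1 = a ∧ dinv x.1 x.2 = d ∧ expo x.2 = m}

/-- link symmetric function: series in x over series in q (outer) and t (inner) -/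
noncomputable def L {n : ℕ} (v : Fin n → Fin 2) :
    MvPowerSeries ℕ+ (PowerSeries (PowerSeries ℤ)) :=
  fun m => PowerSeries.mk fun a => PowerSeries.mk fun d => ((S v m a d).ncard : ℤ)

lemma area_eq {n : ℕ} (g : Fin n → ℕ) : area g = ((∑ i, (g i - 1) : ℕ) : ℤ) := by
  unfold area
  rw [card_filter]
  push_cast
  rw [← sum_sub_distrib]
  refine sum_congr rfl fun i _ => ?_
  split_ifs with h
  · rw [Nat.cast_sub h]; simp
  · have : g i = 0 := by omega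
    simp [this]

lemma dinv_eq {n : ℕ} (g : Fin n → ℕ) (p : Fin n → ℕ+) : dinv g p =
    ∑ i, ∑ j, ((if i < j ∧ g i = g j ∧ p i > p j then 1 else 0) +
      (if i < j ∧ g j = g i + 1 ∧ p i < p j then 1 else 0)) := by
  unfold dinv
  rw [card_filter, card_filter, ← sum_add_distrib, ← univ_product_univ, sum_product]

lemma dinv_rot {n : ℕ} (g : Fin n → ℕ) (p : Fin n → ℕ+) (a : ℕ) (b : ℕ+) :
    dinv (Fin.snoc g (a + 1) : Fin (n + 1) → ℕ) (Fin.snoc p b : Fin (n + 1) → ℕ+) =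
      dinv (Fin.cons a g : Fin (n + 1) → ℕ) (Fin.cons b p : Fin (n + 1) → ℕ+) := by
  rw [dinv_eq, dinv_eq]
  conv_lhs => simp only [Fin.sum_univ_castSucc]
  conv_rhs => simp only [Fin.sum_univ_succ]
  simp only [Fin.snoc_castSucc, Fin.snoc_last, Fin.cons_succ, Fin.cons_zero, Fin.castSucc_lt_castSucc_iff,
    Fin.succ_lt_succ_iff, Fin.castSucc_lt_last, Fin.succ_pos, true_and, lt_self_iff_false, false_and,
    if_false, Fin.not_lt_zero, add_zero, zero_add, sum_add_distrib]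
  have h0 : ∀ i : Fin n, ¬ (Fin.last n < i.castSucc) := fun i => not_lt.2 (Fin.le_last _)
  simp only [h0, false_and, if_false, sum_const_zero, add_zero, Nat.add_right_cancel_iff, gt_iff_lt]
  ring

lemma finite {n : ℕ} (v : Fin n → Fin 2) (m : ℕ+ →₀ ℕ) (a d : ℕ) : (S v m a d).Finite := by
  have h1 : {g : Fin n → ℕ | ∀ i, g i ∈ Set.Iic (a + 1)}.Finite :=
    Set.Finite.pi' fun _ => Set.finite_Iic _
  have h2 : {p : Fin n → ℕ+ | ∀ i, p i ∈ (m.support : Set ℕ+)}.Finite :=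
    Set.Finite.pi' fun _ => m.support.finite_toSet
  refine (h1.prod h2).subset ?_
  rintro ⟨g, p⟩ ⟨-, ha, -, hm⟩
  refine ⟨fun i => ?_, fun i => ?_⟩
  · rw [area_eq] at ha
    have h3 : ∑ i, (g i - 1) = a := by exact_mod_cast ha
    have h4 : g i - 1 ≤ ∑ i, (g i - 1) :=
      single_le_sum (f := fun i => g i - 1) (fun _ _ => Nat.zero_le _) (mem_univ i)
    show g i ≤ a + 1
    omega
  · show p i ∈ (m.support : Set ℕ+)
    rw [mem_coe, Finsupp.mem_support_iff, ← hm]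
    unfold expo
    rw [Finsupp.finsetSum_apply]
    have h4 : (Finsupp.single (p i) 1 : ℕ+ →₀ ℕ) (p i) ≤ ∑ j, (Finsupp.single (p j) 1 : ℕ+ →₀ ℕ) (p i) :=
      single_le_sum (f := fun j => (Finsupp.single (p j) 1 : ℕ+ →₀ ℕ) (p i))
        (fun _ _ => Nat.zero_le _) (mem_univ i)
    simp only [Finsupp.single_eq_same] at h4
    show ∑ j, (Finsupp.single (p j) 1 : ℕ+ →₀ ℕ) (p i) ≠ 0
    omega

def rot {n : ℕ} (x : (Fin (n + 1) → ℕ) × (Fin (n + 1) → ℕ+)) :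
    (Fin (n + 1) → ℕ) × (Fin (n + 1) → ℕ+) :=
  (Fin.snoc (Fin.tail x.1) (x.1 0 + 1), Fin.snoc (Fin.tail x.2) (x.2 0))

lemma rot_inj {n : ℕ} : Function.Injective (rot (n := n)) := by
  rintro ⟨g, p⟩ ⟨g', p'⟩ h
  simp only [rot, Prod.mk.injEq, Fin.snoc_inj, Nat.add_right_cancel_iff] at h
  obtain ⟨⟨h1, h2⟩, h3, h4⟩ := h
  rw [← Fin.cons_self_tail g, ← Fin.cons_self_tail g', ← Fin.cons_self_tail p, ← Fin.cons_self_tail p',
    h1, h2, h3, h4]

lemma mem_snoc {n : ℕ} (v : Fin n → Fin 2) (m : ℕ+ →₀ ℕ) (a d : ℕ) (g : Fin n → ℕ) (p : Fin n → ℕ+)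
    (c : ℕ) (b : ℕ+) :
    ((Fin.snoc g (c + 1), Fin.snoc p b) ∈ S (Fin.snoc v 0 : Fin (n + 1) → Fin 2) m a d) ↔
      (∀ i, g i = 0 ↔ v i = 1) ∧ ∑ i, (g i - 1) + c = a ∧
        dinv (Fin.cons c g : Fin (n + 1) → ℕ) (Fin.cons b p : Fin (n + 1) → ℕ+) = d ∧
        Finsupp.single b 1 + expo p = m := by
  simp only [S, Set.mem_ofPred_eq, area_eq, dinv_rot, expo, Fin.sum_univ_castSucc, Fin.snoc_castSucc,
    Fin.snoc_last, Fin.forall_fin_succ', Nat.cast_inj, add_comm (Finsupp.single b 1)]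
  simp

lemma mem_cons {n : ℕ} (v : Fin n → Fin 2) (e : Fin 2) (m : ℕ+ →₀ ℕ) (a d : ℕ) (g : Fin n → ℕ)
    (p : Fin n → ℕ+) (c : ℕ) (b : ℕ+) :
    ((Fin.cons c g, Fin.cons b p) ∈ S (Fin.cons e v : Fin (n + 1) → Fin 2) m a d) ↔
      ((c = 0 ↔ e = 1) ∧ ∀ i, g i = 0 ↔ v i = 1) ∧ (c - 1) + ∑ i, (g i - 1) = a ∧
        dinv (Fin.cons c g : Fin (n + 1) → ℕ) (Fin.cons b p : Fin (n + 1) → ℕ+) = d ∧
        Finsupp.single b 1 + expo p = m := by
  simp only [S, Set.mem_ofPred_eq, area_eq, expo, Fin.sum_univ_succ, Fin.cons_succ,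
    Fin.cons_zero, Fin.forall_fin_succ, Nat.cast_inj]

lemma key {n : ℕ} (v : Fin n → Fin 2) (m : ℕ+ →₀ ℕ) (a d : ℕ) :
    S (Fin.snoc v 0 : Fin (n + 1) → Fin 2) m a d =
      rot '' (S (Fin.cons 1 v : Fin (n + 1) → Fin 2) m a d ∪
        {x | 0 < a ∧ x ∈ S (Fin.cons 0 v : Fin (n + 1) → Fin 2) m (a - 1) d}) := by
  ext ⟨g, p⟩
  constructor
  · intro h
    have hl : g (Fin.last n) ≠ 0 := by
      have := h.1 (Fin.last n)
      simp only [Fin.snoc_last] at this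
      intro h0; exact absurd (this.1 h0) (by decide)
    obtain ⟨c, hc⟩ := Nat.exists_eq_succ_of_ne_zero hl
    refine ⟨(Fin.cons c (Fin.init g), Fin.cons (p (Fin.last n)) (Fin.init p)), ?_, ?_⟩
    · rw [← Fin.snoc_init_self g, ← Fin.snoc_init_self p, hc, Nat.succ_eq_add_one, mem_snoc] at h
      obtain ⟨h1, h2, h3, h4⟩ := h
      rcases Nat.eq_zero_or_pos c with h0 | h0
      · left
        rw [mem_cons]
        exact ⟨⟨by simp [h0], h1⟩, by omega, h3, h4⟩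
      · right
        refine ⟨by omega, ?_⟩
        rw [mem_cons]
        exact ⟨⟨by simp; omega, h1⟩, by omega, h3, h4⟩
    · simp only [rot, Fin.tail_cons, Fin.cons_zero]
      have hc' : c + 1 = g (Fin.last n) := hc.symm
      rw [hc', Fin.snoc_init_self, Fin.snoc_init_self]
  · rintro ⟨⟨g', p'⟩, h, he⟩
    rw [← he]
    simp only [rot]
    rw [mem_snoc]
    rw [← Fin.cons_self_tail g', ← Fin.cons_self_tail p'] at h
    rcases h with h | ⟨h0, h⟩
    · rw [mem_cons] at h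
      obtain ⟨⟨h1, h1'⟩, h2, h3, h4⟩ := h
      have : g' 0 = 0 := h1.2 rfl
      exact ⟨h1', by omega, h3, h4⟩
    · rw [mem_cons] at h
      obtain ⟨⟨h1, h1'⟩, h2, h3, h4⟩ := h
      have : g' 0 ≠ 0 := fun h => absurd (h1.1 h) (by decide)
      exact ⟨h1', by omega, h3, h4⟩

lemma count {n : ℕ} (v : Fin n → Fin 2) (m : ℕ+ →₀ ℕ) (a d : ℕ) :
    (S (Fin.snoc v 0 : Fin (n + 1) → Fin 2) m a d).ncard =
      (S (Fin.cons 1 v : Fin (n + 1) → Fin 2) m a d).ncard +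
        {x | 0 < a ∧ x ∈ S (Fin.cons 0 v : Fin (n + 1) → Fin 2) m (a - 1) d}.ncard := by
  rw [key, Set.ncard_image_of_injective _ rot_inj]
  refine Set.ncard_union_eq ?_ (finite _ _ _ _) ((finite _ m (a - 1) d).subset fun x hx => hx.2)
  rw [Set.disjoint_left]
  rintro x h1 ⟨-, h2⟩
  have a1 := (h1.1 0).2 (by simp)
  have a2 := (h2.1 0).1 a1
  simp at a2

theorem result :
    (∀ (n : ℕ) (v : Fin n → Fin 2) (m : ℕ+ →₀ ℕ) (a d : ℕ), (S v m a d).Finite) ∧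
    ∀ (n : ℕ) (v : Fin n → Fin 2),
      L (Fin.snoc v 0 : Fin (n + 1) → Fin 2) =
        L (Fin.cons 1 v : Fin (n + 1) → Fin 2) +
          MvPowerSeries.C (PowerSeries.X : PowerSeries (PowerSeries ℤ)) *
            L (Fin.cons 0 v : Fin (n + 1) → Fin 2) := by
  refine ⟨fun n v m a d => finite v m a d, fun n v => ?_⟩
  ext m a d
  rw [map_add, MvPowerSeries.coeff_C_mul]
  simp only [MvPowerSeries.coeff_apply, L, map_add, PowerSeries.coeff_mk, count]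
  push_cast
  congr 1
  rcases a with _ | a
  · simp
  · simp [PowerSeries.coeff_succ_X_mul]

end Pool.Agent.Results.MP_c90a8c_co.Holds
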